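import Pool.Agent.Y849.OD.Cls

/-! Ordered abelian-by-nilpotent groups embed in divisible ordered abelian-by-nilpotent groups of
the same class (the construction of `Pool.Agent.Helper189.OD` with control of the class). -/

set_option autoImplicit false
set_option linter.all false

universe u

namespace Pool.Agent.Y849.OD

open _root_.OD

/-- split extension: order, divisibility and the homomorphism given by a derivation -/
theorem semiA {Γ C Y : Type u} [Group Γ] [Group C] [AddCommGroup Y] [DistribMulAction C Y] (hdiv : Dvb C)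
    (PC : Set C) (hPC : Cone PC) (K : Set Y)
    (hadd : ∀ x ∈ K, ∀ y ∈ K, x + y ∈ K) (hsm : ∀ (c : C), ∀ x ∈ K, c • x ∈ K) (h0 : (0 : Y) ∉ K)
    (htot : ∀ y : Y, y = 0 ∨ y ∈ K ∨ -y ∈ K)
    (hN : ∀ (c : C) (n : ℕ), 0 < n → ∀ y : Y, ∃ z : Y, ∑ i ∈ Finset.range n, c ^ i • z = y)
    (ι : Γ →* C) (d : Γ → Y) (hd : ∀ g h : Γ, d (g * h) = d g + ι g • d h) :
    ∃ (H : Type u) (_ : Group H) (PH : Set H) (φ : Γ →* H), Cone PH ∧ Dvb H ∧
      (∀ g : Γ, ι g = 1 → d g ∈ K → φ g ∈ PH) ∧ ∃ p : H →* C, (∀ g : Γ, p (φ g) = ι g) ∧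
        ∀ a b : H, p a = 1 → p b = 1 → a * b = b * a := by
  refine ⟨SD C Y, inferInstance, {a | a.c ∈ PC ∨ (a.c = 1 ∧ a.y ∈ K)},
    MonoidHom.mk' (fun g => (⟨d g, ι g⟩ : SD C Y)) (fun g h => by
      ext
      · simp [hd]
      · simp), ?_, ?_, ?_, ?_⟩
  · refine ⟨?_, ?_, ?_, ?_⟩
    · rintro a (ha | ⟨ha, ha'⟩) b (hb | ⟨hb, hb'⟩)
      · left; exact hPC.mul _ ha _ hb
      · left; rw [SD.mul_c, hb, mul_one]; exact ha
      · left; rw [SD.mul_c, ha, one_mul]; exact hb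
      · right; refine ⟨by rw [SD.mul_c, ha, hb, one_mul], ?_⟩
        rw [SD.mul_y, ha, one_smul]; exact hadd _ ha' _ hb'
    · rintro a (ha | ⟨ha, ha'⟩) g
      · left; exact hPC.conj _ ha _
      · right
        constructor
        · simp [ha]
        · have : (g * a * g⁻¹).y = g.c • a.y := by
            simp [ha]
          rw [this]; exact hsm _ _ ha'
    · rintro (h | ⟨_, h⟩)
      · exact hPC.one h
      · exact h0 h
    · intro g
      rcases hPC.tot g.c with h | h | h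
      · rcases htot g.y with h' | h' | h'
        · left; ext
          · exact h'
          · exact h
        · right; left; right; exact ⟨h, h'⟩
        · right; right; right
          refine ⟨by simp [h], ?_⟩
          simp only [SD.inv_y, h, inv_one, one_smul]; exact h'
      · right; left; left; exact h
      · right; right; left; exact h
  · intro g n hn
    obtain ⟨p, hp⟩ := hdiv g.c n hn
    obtain ⟨z, hz⟩ := hN p n hn g.y
    refine ⟨⟨z, p⟩, ?_⟩
    ext
    · rw [SD.pow_y]; exact hz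
    · rw [SD.pow_c]; exact hp
  · intro g hg hd'
    right; exact ⟨hg, hd'⟩
  · refine ⟨MonoidHom.mk' (fun a : SD C Y => a.c) (fun a b => rfl), fun g => rfl, ?_⟩
    intro a b ha hb
    have ha' : a.c = 1 := ha
    have hb' : b.c = 1 := hb
    ext
    · simp only [SD.mul_y, ha', hb', one_smul]
      exact add_comm _ _
    · simp only [SD.mul_c, ha', hb']


theorem coreA
    {Γ C : Type u} [Group Γ] [Group C] (P : Set Γ) (hP : Cone P) (hCn : Group.IsNilpotent C) (hCd : Dvb C)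
    (PC : Set C) (hPC : Cone PC) (ι : Γ →* C) (hab : ∀ a b : Γ, ι a = 1 → ι b = 1 → a * b = b * a)
    (V : Subgroup Γ) (hV : V.Normal) (hVι : ∀ v ∈ V, ι v = 1) :
    ∃ (H : Type u) (_ : Group H) (PH : Set H) (φ : Γ →* H), Cone PH ∧ Dvb H ∧
      (∀ v ∈ V, v ∈ P → φ v ∈ PH) ∧ ∃ p : H →* C, (∀ g : Γ, p (φ g) = ι g) ∧
        ∀ a b : H, p a = 1 → p b = 1 → a * b = b * a := by
  obtain ⟨X, _, _, d, K0, hd, hadd, hsm, h0, hdV⟩ := kk P hP ι hab V hV hVι
  obtain ⟨Y, _, _, f, K, hf, hfK, haddK, hsmK, h0K, htot, hdiv⟩ :=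
    oLocal (oreN_of_fg hCn oreFG) ⟨PC, hPC⟩ K0 hadd hsm h0
  obtain ⟨H, _, PH, φ, hPH, hHd, h1, h2⟩ := semiA hCd PC hPC K haddK hsmK h0K htot hdiv ι (fun g => f (d g))
    (fun g h => by rw [hd, map_add, hf])
  exact ⟨H, inferInstance, PH, φ, hPH, hHd, fun v hv hvP => h1 v (hVι v hv) (hfK _ (hdV v hv hvP)), h2⟩


theorem coreGA
    {G : Type u} [Group G] (P : Set G) (hP : Cone P) (A : Subgroup G) (hA : A.Normal)
    (hAab : ∀ a ∈ A, ∀ b ∈ A, a * b = b * a) (hnil : Group.IsNilpotent (G ⧸ A)) (V : Subgroup G) (hV : V.Normal)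
    (hjump : ∀ u ∈ V, u ∈ P → ∀ b ∈ V, ∃ (x : G) (n : ℕ), b = x * u ^ n * x⁻¹ ∨ b⁻¹ * (x * u ^ n * x⁻¹) ∈ P) :
    ∃ (H : Type u) (_ : Group H) (PH : Set H) (φ : G →* H), Cone PH ∧ Dvb H ∧
      (∀ v ∈ V, v ∈ P → φ v ∈ PH) ∧
      ∃ (C : Type u) (_ : Group C) (p : H →* C), Group.IsNilpotent C ∧
        Group.nilpotencyClass C ≤ Group.nilpotencyClass (G ⧸ A) ∧ (∀ a ∈ A, p (φ a) = 1) ∧
        ∀ a b : H, p a = 1 → p b = 1 → a * b = b * a := by
  haveI hnil' := hnil
  have hkey : (∀ a ∈ A, ∀ v ∈ V, a * v = v * a) ∧ (∀ v ∈ V, ∀ w ∈ V, v * w = w * v) := by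
    obtain ⟨_, _, _, hlt⟩ := hP.exists_order
    refine key A V hA hV hAab hnil ?_
    intro u hu h1 b hb
    have huP : u ∈ P := by
      have := (hlt 1 u).1 h1
      rwa [inv_one, one_mul] at this
    obtain ⟨x, n, h | h⟩ := hjump u hu huP b hb
    · exact ⟨x, n, h.le⟩
    · exact ⟨x, n, ((hlt _ _).2 h).le⟩
  -- `B = A ⊔ V` is abelian
  have hBab : ∀ a ∈ A ⊔ V, ∀ b ∈ A ⊔ V, a * b = b * a := by
    intro x hx y hy
    obtain ⟨a, ha, v, hv, rfl⟩ := Subgroup.mem_sup_of_normal_left.1 hx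
    obtain ⟨b, hb, w, hw, rfl⟩ := Subgroup.mem_sup_of_normal_left.1 hy
    have c1 : Commute a b := hAab a ha b hb
    have c2 : Commute a w := hkey.1 a ha w hw
    have c3 : Commute v b := (hkey.1 b hb v hv).symm
    have c4 : Commute v w := hkey.2 v hv w hw
    exact ((c1.mul_right c2).mul_left (c3.mul_right c4))
  obtain ⟨I, hI, hBI, hIab, hIs⟩ := isol P hP (A ⊔ V) inferInstance hBab
  have hAI : A ≤ I := le_sup_left.trans hBI
  have hVI : V ≤ I := le_sup_right.trans hBI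
  have hQn : Group.IsNilpotent (G ⧸ I) := by
    haveI := hnil
    refine Group.nilpotent_of_surjective (QuotientGroup.map A I (MonoidHom.id G) hAI) ?_
    intro x
    obtain ⟨g, rfl⟩ := QuotientGroup.mk_surjective x
    exact ⟨(QuotientGroup.mk g : G ⧸ A), rfl⟩
  have hQc : Group.nilpotencyClass (G ⧸ I) ≤ Group.nilpotencyClass (G ⧸ A) := by
    refine Group.nilpotencyClass_le_of_surjective
      (QuotientGroup.map A I (MonoidHom.id G) hAI) ?_
    intro x
    obtain ⟨g, rfl⟩ := QuotientGroup.mk_surjective x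
    exact ⟨(QuotientGroup.mk g : G ⧸ A), rfl⟩
  have hQtf : TF (G ⧸ I) := by
    intro q n hn hq
    obtain ⟨g, rfl⟩ := QuotientGroup.mk_surjective q
    have h1 : ((g ^ n : G) : G ⧸ I) = 1 := hq
    exact (QuotientGroup.eq_one_iff g).2 (hIs g n hn ((QuotientGroup.eq_one_iff _).1 h1))
  obtain ⟨C, _, PC, ι0, hCn, hCc, hCd, hPC, hι⟩ := malcev_class hQn hQtf
  have hker : ∀ g : G, (ι0.comp (QuotientGroup.mk' I)) g = 1 → g ∈ I := by
    intro g hg
    have h1 : ι0 (QuotientGroup.mk g : G ⧸ I) = ι0 1 := by rw [map_one]; exact hg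
    exact (QuotientGroup.eq_one_iff g).1 (hι h1)
  obtain ⟨H, _, PH, φ, hPH, hHd, h1, p, hp, hpab⟩ := coreA P hP hCn hCd PC hPC (ι0.comp (QuotientGroup.mk' I))
    (fun a b ha hb => hIab a (hker a ha) b (hker b hb)) V hV
    (fun v hv => by
      show ι0 (QuotientGroup.mk v : G ⧸ I) = 1
      rw [(QuotientGroup.eq_one_iff v).2 (hVI hv), map_one])
  refine ⟨H, inferInstance, PH, φ, hPH, hHd, h1, C, inferInstance, p, hCn, hCc.trans hQc,
    fun a ha => ?_, hpab⟩
  rw [hp]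
  show ι0 (QuotientGroup.mk a : G ⧸ I) = 1
  rw [(QuotientGroup.eq_one_iff a).2 (hAI ha), map_one]


/-- the statement for one normal convex subgroup -/
theorem local_homA
    {G : Type u} [Group G] (P : Set G) (hP : Cone P) (A : Subgroup G) (hA : A.Normal)
    (hAab : ∀ a ∈ A, ∀ b ∈ A, a * b = b * a) (hnil : Group.IsNilpotent (G ⧸ A)) (N : Subgroup G) (hN : NC P N) :
    ∃ (H : Type u) (_ : Group H) (PH : Set H) (φ : G →* H), Cone PH ∧ Dvb H ∧
      (∀ g ∈ N, φ g = 1) ∧ (∀ g ∈ P, g ∉ N → (∀ M : Subgroup G, NC P M → N < M → g ∈ M) → φ g ∈ PH) ∧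
      ∃ (C : Type u) (_ : Group C) (p : H →* C), Group.IsNilpotent C ∧
        Group.nilpotencyClass C ≤ Group.nilpotencyClass (G ⧸ A) ∧ (∀ a ∈ A, p (φ a) = 1) ∧
        ∀ a b : H, p a = 1 → p b = 1 → a * b = b * a := by
  haveI hnil' := hnil
  haveI := hN.nor
  -- intersection of the larger normal convex subgroups
  let W : Subgroup G := sInf {M | NC P M ∧ N < M}
  have hNW : N ≤ W := le_sInf (fun M hM => hM.2.le)
  have hWn : W.Normal := by
    refine ⟨fun a ha g => ?_⟩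
    rw [Subgroup.mem_sInf] at ha ⊢
    intro M hM
    exact hM.1.nor.conj_mem a (ha M hM) g
  have hQ := quot_cone P hP N hN.cvx
  set PQ : Set (G ⧸ N) := {x : G ⧸ N | ∃ g ∈ P, g ∉ N ∧ (QuotientGroup.mk g : G ⧸ N) = x} with hPQ
  have hAQ : (A.map (QuotientGroup.mk' N)).Normal := hA.map _ (QuotientGroup.mk'_surjective N)
  have hAQab : ∀ a ∈ A.map (QuotientGroup.mk' N), ∀ b ∈ A.map (QuotientGroup.mk' N), a * b = b * a := by
    rintro _ ⟨a, ha, rfl⟩ _ ⟨b, hb, rfl⟩
    rw [← map_mul, ← map_mul, hAab a ha b hb]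
  have hQnil : Group.IsNilpotent ((G ⧸ N) ⧸ A.map (QuotientGroup.mk' N)) := by
    haveI := hnil
    have hle : A ≤ (A.map (QuotientGroup.mk' N)).comap (QuotientGroup.mk' N) := Subgroup.le_comap_map _ _
    refine Group.nilpotent_of_surjective
      (QuotientGroup.map A (A.map (QuotientGroup.mk' N)) (QuotientGroup.mk' N) hle) ?_
    intro x
    obtain ⟨y, rfl⟩ := QuotientGroup.mk_surjective x
    obtain ⟨g, rfl⟩ := QuotientGroup.mk_surjective y
    exact ⟨(QuotientGroup.mk g : G ⧸ A), rfl⟩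
  have hQc : Group.nilpotencyClass ((G ⧸ N) ⧸ A.map (QuotientGroup.mk' N)) ≤
      Group.nilpotencyClass (G ⧸ A) := by
    have hle : A ≤ (A.map (QuotientGroup.mk' N)).comap (QuotientGroup.mk' N) := Subgroup.le_comap_map _ _
    refine Group.nilpotencyClass_le_of_surjective
      (QuotientGroup.map A (A.map (QuotientGroup.mk' N)) (QuotientGroup.mk' N) hle) ?_
    intro x
    obtain ⟨y, rfl⟩ := QuotientGroup.mk_surjective x
    obtain ⟨g, rfl⟩ := QuotientGroup.mk_surjective y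
    exact ⟨(QuotientGroup.mk g : G ⧸ A), rfl⟩
  have hVn : (W.map (QuotientGroup.mk' N)).Normal := hWn.map _ (QuotientGroup.mk'_surjective N)
  obtain ⟨H, _, PH, φ, hPH, hHd, hφ, C, _, p, hCn, hCc, hpA, hpab⟩ := coreGA PQ hQ (A.map (QuotientGroup.mk' N)) hAQ hAQab hQnil
    (W.map (QuotientGroup.mk' N)) hVn (by
      rintro u hu ⟨g, hgP, hgN, rfl⟩ b ⟨w, hw, rfl⟩
      obtain ⟨M, hMNC, hgM, hMb⟩ := exists_M hP g hgP
      have hNM : N < M := by
        rcases NC.total hP hN hMNC with h | h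
        · exact lt_of_le_of_ne h (fun h' => hgN (h' ▸ hgM))
        · exact absurd (h hgM) hgN
      have hwM : w ∈ M := (Subgroup.mem_sInf.1 hw) M ⟨hMNC, hNM⟩
      obtain ⟨x, n, h⟩ := hMb w hwM
      refine ⟨(QuotientGroup.mk x : G ⧸ N), n, ?_⟩
      rcases h with h | h
      · left
        rw [h]; rfl
      · by_cases hin : w⁻¹ * (x * g ^ n * x⁻¹) ∈ N
        · left
          have := (QuotientGroup.eq_one_iff _).2 hin
          have h2 : ((QuotientGroup.mk w : G ⧸ N))⁻¹ * ((QuotientGroup.mk x : G ⧸ N) * (QuotientGroup.mk g : G ⧸ N) ^ n * (QuotientGroup.mk x : G ⧸ N)⁻¹) = 1 := this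
          exact inv_mul_eq_one.1 h2
        · right
          exact ⟨w⁻¹ * (x * g ^ n * x⁻¹), h, hin, rfl⟩)
  refine ⟨H, inferInstance, PH, φ.comp (QuotientGroup.mk' N), hPH, hHd, ?_, ?_, C, inferInstance, p, hCn,
    hCc.trans hQc, fun a ha => hpA _ ⟨a, ha, rfl⟩, hpab⟩
  · intro g hg
    show φ (QuotientGroup.mk g : G ⧸ N) = 1
    rw [(QuotientGroup.eq_one_iff g).2 hg, map_one]
  · intro g hgP hgN hg
    refine hφ _ ?_ ⟨g, hgP, hgN, rfl⟩
    refine ⟨g, ?_, rfl⟩
    exact Subgroup.mem_sInf.2 (fun M hM => hg M hM.1 hM.2)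


/-- main theorem in terms of cones -/
theorem main_coneA
    {G : Type u} [Group G] (P : Set G) (hP : Cone P) (A : Subgroup G) (hA : A.Normal)
    (hAab : ∀ a ∈ A, ∀ b ∈ A, a * b = b * a) (hnil : Group.IsNilpotent (G ⧸ A)) :
    ∃ (H : Type u) (_ : Group H) (PH : Set H) (φ : G →* H), Cone PH ∧ Dvb H ∧ (∀ g ∈ P, φ g ∈ PH) ∧
      ∃ (C : Type u) (_ : Group C) (p : H →* C), Group.IsNilpotent C ∧
        Group.nilpotencyClass C ≤ Group.nilpotencyClass (G ⧸ A) ∧ (∀ a ∈ A, p (φ a) = 1) ∧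
        ∀ a b : H, p a = 1 → p b = 1 → a * b = b * a := by
  classical
  let I : Type u := {N : Subgroup G // NC P N}
  letI : LinearOrder I :=
    { (inferInstance : PartialOrder I) with
      le_total := fun a b => NC.total hP a.2 b.2
      toDecidableLE := fun _ _ => Classical.dec _ }
  have h : ∀ i : I, ∃ (H : Type u) (_ : Group H) (PH : Set H) (φ : G →* H), Cone PH ∧ Dvb H ∧
      (∀ g ∈ i.1, φ g = 1) ∧ (∀ g ∈ P, g ∉ i.1 → (∀ M : Subgroup G, NC P M → i.1 < M → g ∈ M) → φ g ∈ PH) ∧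
      ∃ (C : Type u) (_ : Group C) (p : H →* C), Group.IsNilpotent C ∧
        Group.nilpotencyClass C ≤ Group.nilpotencyClass (G ⧸ A) ∧ (∀ a ∈ A, p (φ a) = 1) ∧
        ∀ a b : H, p a = 1 → p b = 1 → a * b = b * a :=
    fun i => local_homA P hP A hA hAab hnil i.1 i.2
  choose H inst PH φ hPH hHd hφ1 hφ2 C instC p hCn hCc hpA hpab using h
  letI := inst
  letI := instC
  haveI := hCn
  have hbot : (⊤ : Subgroup (∀ i, C i)).lowerCentralSeries (Group.nilpotencyClass (G ⧸ A)) = ⊥ := by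
    rw [eq_bot_iff]
    refine (Subgroup.top_lowerCentralSeries_pi_le _).trans ?_
    intro x hx
    rw [Subgroup.mem_bot]
    funext i
    have h1 := (Subgroup.mem_pi _).1 hx i (Set.mem_univ i)
    rw [Subgroup.lowerCentralSeries_eq_bot_iff_nilpotencyClass_le.mpr (hCc i),
      Subgroup.mem_bot] at h1
    exact h1
  have hCpi : Group.IsNilpotent (∀ i, C i) :=
    Group.isNilpotent_pi_of_bounded_class (Group.nilpotencyClass (G ⧸ A)) hCc
  obtain ⟨PP, hPP, hPP2⟩ := prod_cone H PH hPH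
  refine ⟨∀ i, H i, inferInstance, PP, MonoidHom.mk' (fun g i => φ i g) (fun a b => by
    funext i; exact map_mul (φ i) a b), hPP, ?_, ?_, ∀ i, C i, inferInstance,
    MonoidHom.mk' (fun h i => p i (h i)) (fun a b => by funext i; exact map_mul (p i) _ _),
    hCpi, Subgroup.lowerCentralSeries_eq_bot_iff_nilpotencyClass_le.mp hbot,
    fun a ha => funext fun i => hpA i a ha,
    fun a b ha hb => funext fun i => hpab i _ _ (congrFun ha i) (congrFun hb i)⟩
  · intro d n hn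
    choose x hx using fun i => hHd i (d i) n hn
    exact ⟨x, funext hx⟩
  · intro g hg
    obtain ⟨N, hN, hgN, hmax⟩ := exists_N hP g hg
    have key : ∀ M : Subgroup G, NC P M → N < M → g ∈ M := by
      intro M hM hNM
      by_contra hgM
      exact absurd (hmax M hM hgM) (not_le_of_gt hNM)
    refine hPP2 _ ⟨N, hN⟩ (hφ2 ⟨N, hN⟩ g hg hgN key) ?_
    intro j hj
    exact hφ1 j g (key j.1 j.2 hj)


/-- Every ordered abelian-by-nilpotent group order-embeds in a divisible ordered group which is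
abelian-by-nilpotent of the same class. -/
theorem mainA {G : Type u} [Group G] [LinearOrder G] [MulLeftMono G] [MulRightMono G]
    (A : Subgroup G) (hA : A.Normal) (hAab : ∀ a ∈ A, ∀ b ∈ A, a * b = b * a)
    (hnil : Group.IsNilpotent (G ⧸ A)) :
    ∃ (H : Type u) (_ : Group H) (_ : LinearOrder H) (_ : MulLeftMono H) (_ : MulRightMono H)
      (φ : G →* H) (B : Subgroup H) (_ : B.Normal),
      (∀ a b : G, a ≤ b ↔ φ a ≤ φ b) ∧ (∀ (h : H) (n : ℕ), 1 ≤ n → ∃ x : H, x ^ n = h) ∧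
      (∀ a ∈ B, ∀ b ∈ B, a * b = b * a) ∧ (∀ a ∈ A, φ a ∈ B) ∧ Group.IsNilpotent (H ⧸ B) ∧
      Group.nilpotencyClass (H ⧸ B) ≤ Group.nilpotencyClass (G ⧸ A) := by
  obtain ⟨H, _, PH, φ, hPH, hHd, hφ, C, _, p, hCn, hCc, hpA, hpab⟩ :=
    main_coneA {g : G | 1 < g} (cone_of_order G) A hA hAab hnil
  obtain ⟨lo, hl, hr, hlt⟩ := hPH.exists_order
  have hmono : StrictMono φ := by
    intro a b hab
    rw [hlt, ← map_inv, ← map_mul]
    apply hφ
    show 1 < a⁻¹ * b
    have h1 : a⁻¹ * a < a⁻¹ * b := mul_lt_mul_right hab a⁻¹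
    rwa [inv_mul_cancel] at h1
  haveI := hCn
  haveI hrn : Group.IsNilpotent p.range := inferInstance
  have e : p.range ≃* H ⧸ p.ker := (QuotientGroup.quotientKerEquivRange p).symm
  refine ⟨H, inferInstance, lo, hl, hr, φ, p.ker, inferInstance,
    fun a b => (hmono.le_iff_le).symm, hHd, fun a ha b hb => hpab a b ha hb, hpA,
    Group.nilpotent_of_mulEquiv e, ?_⟩
  exact (Group.nilpotencyClass_le_of_surjective e.toMonoidHom e.surjective).trans
    ((Subgroup.nilpotencyClass_le p.range).trans hCc)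

end Pool.Agent.Y849.OD
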