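import Pool.Agent.Helper189.OD.Main

/-! Nilpotency class of root closures; Malcev completion with control of the class. -/

set_option autoImplicit false
set_option linter.all false

universe u

namespace Pool.Agent.Y849.OD

open _root_.OD

/-- torsion-free nilpotent groups have unique roots -/
theorem ur_of_tf {Q : Type u} [Group Q] (hn : Group.IsNilpotent Q) (htf : TF Q) : UR Q := by
  obtain ⟨C, _, PC, ι, _, _, hPC, hι⟩ := malcevAll hn htf
  exact UR.of_injective (fun x y n h0 h => cone_root_unique hPC x y n h0 h) ι hι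

/-- A torsion-free nilpotent group has the class of any subgroup containing powers of all
elements. -/
theorem class_le (M : Type u) [Group M] [Group.IsNilpotent M] :
    TF M → ∀ K : Subgroup M, (∀ y : M, ∃ m : ℕ, 0 < m ∧ y ^ m ∈ K) →
      Group.nilpotencyClass M ≤ Group.nilpotencyClass K := by
  refine Group.nilpotent_center_quotient_ind (P := fun (M : Type u) _ _ => TF M →
    ∀ K : Subgroup M, (∀ y : M, ∃ m : ℕ, 0 < m ∧ y ^ m ∈ K) →
      Group.nilpotencyClass M ≤ Group.nilpotencyClass K) M ?_ ?_
  · intro M _ _ _ K _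
    rw [Group.nilpotencyClass_zero_iff_subsingleton.mpr inferInstance]
    exact Nat.zero_le _
  · intro M _ hMn ih htf K hK
    rcases subsingleton_or_nontrivial M with hM | hM
    · rw [Group.nilpotencyClass_zero_iff_subsingleton.mpr hM]
      exact Nat.zero_le _
    have hur : UR M := ur_of_tf hMn htf
    have hKnt : Nontrivial K := by
      obtain ⟨x, hx⟩ := exists_ne (1 : M)
      obtain ⟨m, hm, hxm⟩ := hK x
      refine ⟨⟨⟨x ^ m, hxm⟩, 1, ?_⟩⟩
      intro h
      exact hx (htf x m hm (congrArg Subtype.val h))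
    have hqtf : TF (M ⧸ Subgroup.center M) := by
      intro q n h0 hq
      obtain ⟨x, rfl⟩ := QuotientGroup.mk_surjective q
      rw [← QuotientGroup.mk_pow, QuotientGroup.eq_one_iff] at hq
      exact (QuotientGroup.eq_one_iff x).2 (center_isol hMn htf x n h0 hq)
    have h1 := ih hqtf (K.map (QuotientGroup.mk' (Subgroup.center M))) (by
      intro q
      obtain ⟨x, rfl⟩ := QuotientGroup.mk_surjective q
      obtain ⟨m, hm, hxm⟩ := hK x
      exact ⟨m, hm, ⟨x ^ m, hxm, rfl⟩⟩)
    -- the centre of `K` is contained in the centre of `M`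
    have hZ : ∀ k : K, k ∈ Subgroup.center K → (k : M) ∈ Subgroup.center M := by
      intro k hk
      rw [Subgroup.mem_center_iff]
      intro y
      obtain ⟨m, hm, hym⟩ := hK y
      have h2 : Commute (y ^ m) (k : M) := by
        have := Subgroup.mem_center_iff.1 hk ⟨y ^ m, hym⟩
        exact congrArg Subtype.val this
      exact UR.comm hur hm h2
    let f : K →* K.map (QuotientGroup.mk' (Subgroup.center M)) :=
      (QuotientGroup.mk' (Subgroup.center M)).subgroupMap K
    have hf : Function.Surjective f := MonoidHom.subgroupMap_surjective _ _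
    have hfZ : ∀ k ∈ Subgroup.center K, f k = 1 := by
      intro k hk
      apply Subtype.ext
      exact (QuotientGroup.eq_one_iff _).2 (hZ k hk)
    let g : (K ⧸ Subgroup.center K) →* K.map (QuotientGroup.mk' (Subgroup.center M)) :=
      QuotientGroup.lift (Subgroup.center K) f hfZ
    have hg : Function.Surjective g := by
      intro y
      obtain ⟨k, hk⟩ := hf y
      exact ⟨QuotientGroup.mk k, hk⟩
    have h2 := Group.nilpotencyClass_le_of_surjective g hg
    have h3 := Group.nilpotencyClass_eq_quotient_center_plus_one (G := M)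
    have h4 := Group.nilpotencyClass_eq_quotient_center_plus_one (G := K)
    omega

/-- Malcev completion, ordered, of the same class. -/
theorem malcev_class {Q : Type u} [Group Q] (hn : Group.IsNilpotent Q) (htf : TF Q) :
    ∃ (C : Type u) (_ : Group C) (PC : Set C) (ι : Q →* C), Group.IsNilpotent C ∧
      Group.nilpotencyClass C ≤ Group.nilpotencyClass Q ∧ Dvb C ∧ Cone PC ∧
      Function.Injective ι := by
  haveI := hn
  obtain ⟨C, _, PC, ι, hCn, hCd, hPC, hι⟩ := malcevAll hn htf
  haveI := hCn
  have hur : ∀ x y : C, ∀ n : ℕ, 0 < n → x ^ n = y ^ n → x = y :=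
    fun x y n h0 h => cone_root_unique hPC x y n h0 h
  obtain ⟨M, hKM, hMn, hM⟩ := root_closure hCd hur ι.range inferInstance
  haveI := hMn
  let f : Q →* M := ι.codRestrict M (fun q => hKM ⟨q, rfl⟩)
  have htfM : TF M := by
    intro x n h0 hx
    apply Subtype.ext
    apply hur (x : C) 1 n h0
    rw [one_pow, ← Subgroup.coe_pow, hx]
    rfl
  have hcl : Group.nilpotencyClass M ≤ Group.nilpotencyClass f.range := by
    refine class_le M htfM f.range fun y => ?_
    obtain ⟨m, hm, q, hq⟩ := (hM (y : C)).1 y.2
    exact ⟨m, hm, q, Subtype.ext hq⟩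
  have hcl2 : Group.nilpotencyClass f.range ≤ Group.nilpotencyClass Q :=
    Group.nilpotencyClass_le_of_surjective f.rangeRestrict f.rangeRestrict_surjective
  refine ⟨M, inferInstance, {y | (y : C) ∈ PC}, f, hMn, hcl.trans hcl2, ?_, ?_, ?_⟩
  · intro y n h0
    obtain ⟨x, hx⟩ := hCd (y : C) n h0
    obtain ⟨m, hm, hym⟩ := (hM (y : C)).1 y.2
    refine ⟨⟨x, (hM x).2 ⟨n * m, Nat.mul_pos h0 hm, ?_⟩⟩, Subtype.ext ?_⟩
    · rw [pow_mul, hx]; exact hym
    · rw [Subgroup.coe_pow]; exact hx
  · refine ⟨fun a ha b hb => hPC.mul _ ha _ hb, fun a ha g => hPC.conj _ ha _, hPC.one, ?_⟩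
    intro g
    rcases hPC.tot (g : C) with h | h | h
    · left; exact Subtype.ext h
    · right; left; exact h
    · right; right; exact h
  · intro a b h
    exact hι (congrArg Subtype.val h)

end Pool.Agent.Y849.OD
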